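import Pool.Agent.Work.MP_10bde7_an.Uniform

set_option autoImplicit false

namespace Pool.Agent.Results.MP_10bde7_an.UniformBound

theorem result :
    ∃ C : ℝ, ∀ f : ℂ → ℂ, DifferentiableOn ℂ f (Metric.ball (0:ℂ) 1) →
      Set.InjOn f (Metric.ball (0:ℂ) 1) →
      (∀ z ∈ Metric.ball (0:ℂ) 1, f z ≠ 0) →
      ∃ B F : ℂ → ℂ,
        DifferentiableOn ℂ B (Metric.ball (0:ℂ) 1) ∧
        DifferentiableOn ℂ F (Metric.ball (0:ℂ) 1) ∧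
        (∀ z ∈ Metric.ball (0:ℂ) 1, Real.exp (-C) ≤ ‖B z‖ ∧ ‖B z‖ ≤ Real.exp C) ∧
        (∀ z ∈ Metric.ball (0:ℂ) 1, 0 < (F z).re) ∧
        (∀ z ∈ Metric.ball (0:ℂ) 1, f z = B z * F z ^ 2) :=
  ⟨Pool.Agent.Work.MP_10bde7_an.Cs.toReal,
    fun f hf hinj h0 => Pool.Agent.Work.MP_10bde7_an.main_uniform f hf hinj h0⟩

end Pool.Agent.Results.MP_10bde7_an.UniformBound
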